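import Pool.Agent.helper64.LP.Main0
import Pool.Agent.helper22.LP.MatBits

/-!
# Recognition of k-locally planar graphs is NP-hard for every k ≥ 3 (MP_32ee78_lc, Q2)
-/

set_option autoImplicit false

namespace Pool.Agent.Results.MP_32ee78_lc.LocallyPlanarNPHard

open Pool.Agent.helper64.LP

/-- For every `k ≥ 3`, deciding whether a graph (given by its adjacency matrix) is `k`-locally
planar is NP-hard under polynomial-time many-one reductions. -/
theorem result : ∀ k : ℕ, 3 ≤ k → NPHard (LPLang k) :=
  fun k hk => main_of matBits_polyTime k hk

end Pool.Agent.Results.MP_32ee78_lc.LocallyPlanarNPHard
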